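import Pool.Agent.helper14.AV.Spec

/-! Row ICP of project AV. -/

set_option autoImplicit false

namespace Pool.Agent.helper14.AV

theorem ICP_edges {α : Type} : ∀ (l : List α) (a : α) (f : α × α), f ∈ edges (a :: l) →
    f.1 ∈ a :: l ∧ f.2 ∈ l := by
  intro l
  induction l with
  | nil => intro a f hf; simp [edges] at hf
  | cons c l ih =>
    intro a f hf
    rw [edges, List.mem_cons] at hf
    rcases hf with rfl | hf
    · exact ⟨List.mem_cons_self, List.mem_cons_self⟩
    · obtain ⟨h1, h2⟩ := ih c f hf
      exact ⟨List.mem_cons_of_mem _ h1, List.mem_cons_of_mem _ h2⟩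

theorem ICP_aux (hSTP : STP_stmt) (hHPL : HPL_stmt) (ι : Type) [DecidableEq ι] (P Q : ι → ℝ × ℝ)
    (t : ι) : ∀ (n : ℕ) (L : Finset ι) (x : ι × Bool), L.card = n → x.1 ∉ L → t ∈ L →
  Cvx P Q (insert x.1 L) →
  ∃ (w : List (ι × Bool)) (b : Bool), ((w ++ [(t, b)]).map Prod.fst).Nodup ∧
    (∀ i, i ∈ (w ++ [(t, b)]).map Prod.fst ↔ i ∈ L) ∧ PD P Q (x :: (w ++ [(t, b)])) := by
  intro n
  induction n with
  | zero =>
    intro L x hc _ ht _
    rw [Finset.card_eq_zero] at hc
    rw [hc] at ht
    simp at ht
  | succ n ih =>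
    intro L x hc hx ht hcv
    by_cases h1 : L.card = 1
    · obtain ⟨a, ha⟩ := Finset.card_eq_one.1 h1
      rw [ha, Finset.mem_singleton] at ht
      subst ht
      refine ⟨[], true, by simp, fun i => by simp [ha], ?_⟩
      unfold PD
      simp [edges]
    · have hcard : 2 ≤ L.card := by
        have : 0 < L.card := Finset.card_pos.2 ⟨t, ht⟩
        omega
      have hcvL : Cvx P Q L := fun i hi j hj hij =>
        hcv i (Finset.mem_insert_of_mem hi) j (Finset.mem_insert_of_mem hj) hij
      have hne : ∀ j ∈ L, j ≠ x.1 := fun j hj h => hx (h ▸ hj)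
      have hp : ∀ j ∈ L, 0 < D (P j) (Q j) (fn P Q x) := by
        intro j hj
        have h2 := hcv j (Finset.mem_insert_of_mem hj) x.1 (Finset.mem_insert_self _ _) (hne j hj)
        unfold fn
        split_ifs
        · exact h2.2
        · exact h2.1
      have hr : ∃ r : ℝ × ℝ, ∀ j ∈ L, 0 < D (fn P Q x) r (P j) ∧ 0 < D (fn P Q x) r (Q j) := by
        by_cases hb : x.2 = true
        · refine ⟨(2 * (Q x.1).1 - (P x.1).1, 2 * (Q x.1).2 - (P x.1).2), fun j hj => ?_⟩
          have h2 := hcv x.1 (Finset.mem_insert_self _ _) j (Finset.mem_insert_of_mem hj) (hne j hj).symm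
          have key : ∀ z : ℝ × ℝ, D (Q x.1) (2 * (Q x.1).1 - (P x.1).1, 2 * (Q x.1).2 - (P x.1).2) z =
              D (P x.1) (Q x.1) z := by
            intro z; unfold D; ring
          unfold fn
          rw [if_pos hb, key, key]
          exact h2
        · refine ⟨Q x.1, fun j hj => ?_⟩
          have h2 := hcv x.1 (Finset.mem_insert_self _ _) j (Finset.mem_insert_of_mem hj) (hne j hj).symm
          unfold fn
          rw [if_neg hb]
          exact h2
      obtain ⟨r, hr⟩ := hr
      obtain ⟨h, hhL, hht, b, ε, he1, he2⟩ := hSTP ι P Q L (fn P Q x) r t ht hcard hcvL hp hr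
      have hins : insert h (L.erase h) = L := Finset.insert_erase hhL
      obtain ⟨w, b', hw1, hw2, hw3⟩ := ih (L.erase h) (h, b)
        (by rw [Finset.card_erase_of_mem hhL]; omega) (by simp)
        (Finset.mem_erase.2 ⟨hht.symm, ht⟩) (by change Cvx P Q (insert h (L.erase h)); rw [hins]; exact hcvL)
      refine ⟨(h, b) :: w, b', ?_, ?_, ?_⟩
      · rw [List.cons_append, List.map_cons, List.nodup_cons]
        refine ⟨?_, hw1⟩
        rw [hw2]
        simp
      · intro i
        rw [List.cons_append, List.map_cons, List.mem_cons, hw2, Finset.mem_erase]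
        constructor
        · rintro (rfl | h3)
          · exact hhL
          · exact h3.2
        · intro h3
          by_cases h4 : i = h
          · left; exact h4
          · right; exact ⟨h4, h3⟩
      · unfold PD at hw3 ⊢
        rw [List.cons_append, edges, List.pairwise_cons]
        refine ⟨?_, hw3⟩
        intro f hf
        obtain ⟨hf1, hf2⟩ := ICP_edges _ _ _ hf
        have hmem : ∀ u : ι × Bool, u ∈ w ++ [(t, b')] → u.1 ∈ L ∧ u.1 ≠ h := by
          intro u hu
          have h5 : u.1 ∈ (w ++ [(t, b')]).map Prod.fst := List.mem_map_of_mem hu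
          rw [hw2, Finset.mem_erase] at h5
          exact ⟨h5.2, h5.1⟩
        refine hHPL (fn P Q x) (st P Q (h, b)) (fn P Q f.1) (st P Q f.2) ε ?_ ?_
        · rw [List.mem_cons] at hf1
          rcases hf1 with h6 | h6
          · rw [h6]; exact he1
          · obtain ⟨h7, h8⟩ := hmem _ h6
            have h9 := he2 _ h7 h8
            unfold fn at h9 ⊢
            split_ifs at h9 ⊢
            all_goals first | exact h9.2 | exact h9.1
        · obtain ⟨h7, h8⟩ := hmem _ hf2
          have h9 := he2 _ h7 h8
          generalize st P Q (h, b) = X at h9 ⊢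
          unfold st
          by_cases h10 : f.2.2 = true
          · rw [if_pos h10]; exact h9.1
          · rw [if_neg h10]; exact h9.2

theorem ICP (hSTP : STP_stmt) (hHPL : HPL_stmt) : ICP_stmt := by
  intro ι _ P Q L x t hx ht hcv
  exact ICP_aux hSTP hHPL ι P Q t L.card L x rfl hx ht hcv

end Pool.Agent.helper14.AV
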